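import Mathlib
import Pool.Agent.Run7.h339.Ed2

/-!
# The essential dimension of `PGL_5` in characteristic `5`

For every field `F` of characteristic `5` the essential dimension of `PGL_5` over `F` is at most
`2`; it is known to be at least `2`.
-/

set_option autoImplicit false

open scoped TensorProduct

namespace Pool.Agent.Results.MP_4c5958_al.CharFive

universe u

/-- The intermediate field `L` of `K/F` is a field of definition of the central simple `K`-algebra
`A` of degree `5`: there is a central simple `L`-algebra `A₀` of degree `5` with `K ⊗ A₀ ≅ A`. -/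
def IsFieldOfDefinition {F K : Type u} [Field F] [Field K] [Algebra F K] (L : IntermediateField F K)
    (A : Type u) [Ring A] [Algebra K A] : Prop :=
  ∃ (A₀ : Type u) (_ : Ring A₀) (_ : Algebra L A₀), Algebra.IsCentral L A₀ ∧ IsSimpleRing A₀ ∧
    Module.finrank L A₀ = 5 ^ 2 ∧ Nonempty (K ⊗[L] A₀ ≃ₐ[K] A)

/-- The essential dimension over `F` of a central simple `K`-algebra `A` of degree `5`: the least
transcendence degree over `F` of a field of definition of `A`. -/
noncomputable def ed (F K : Type u) [Field F] [Field K] [Algebra F K]
    (A : Type u) [Ring A] [Algebra K A] : Cardinal.{u} :=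
  sInf {c | ∃ L : IntermediateField F K, IsFieldOfDefinition L A ∧ Algebra.trdeg F L = c}

/-- Let `F` be a field of characteristic `5`.  Then every central simple algebra `A` of degree `5`
over every extension field `K` of `F` has essential dimension at most `2` over `F`, that is,
`ed_F(PGL_5) ≤ 2`.  More precisely `A` has a field of definition of transcendence degree at most `2`
over `F`. -/
theorem result (F : Type u) [Field F] [CharP F 5] (K : Type u) [Field K] [Algebra F K]
    (A : Type u) [Ring A] [Algebra K A] [Algebra.IsCentral K A] [IsSimpleRing A]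
    (hA : Module.finrank K A = 5 ^ 2) :
    ed F K A ≤ 2 ∧
      ∃ L : IntermediateField F K, IsFieldOfDefinition L A ∧ Algebra.trdeg F L ≤ 2 := by
  obtain ⟨L, hL, h⟩ := Run7.h339.ed_le_two (F := F) A hA
  have h1 : ed F K A ≤ Algebra.trdeg F L := csInf_le' ⟨L, h, rfl⟩
  exact ⟨h1.trans hL, L, h, hL⟩

end Pool.Agent.Results.MP_4c5958_al.CharFive
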